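import Mathlib

set_option autoImplicit false

namespace Pool.Agent.Results.MP_da2ee6_an.Density

open scoped ENNReal Real ZeroAtInfty
open Filter Topology MeasureTheory Metric WeakDual

universe u

/-! ### Definitions -/

section Defs

variable {A : Type u} [NonUnitalNormedRing A] [NormedSpace ℂ A]

/-- `pw x n` is the power `x ^ (n + 1)` -/
def pw (x : A) : ℕ → A
  | 0 => x
  | n + 1 => pw x n * x

/-- spectral radius of `x`: the infimum over `n ≥ 1` of `‖x ^ n‖ ^ (1 / n)` -/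
noncomputable def specRad (x : A) : ℝ := ⨅ n : ℕ, ‖pw x n‖ ^ ((1 : ℝ) / (n + 1))

/-- spectral radius of the coset `x + I` in `A / I`: the infimum over `n ≥ 1` of
`‖x ^ n + I‖ ^ (1 / n)`, where `‖z + I‖` is the distance of `z` to `I` -/
noncomputable def specRadQuot (I : Submodule ℂ A) (x : A) : ℝ :=
  ⨅ n : ℕ, Metric.infDist (pw x n) (I : Set A) ^ ((1 : ℝ) / (n + 1))

/-- SR-algebra -/
def IsSR (A : Type u) [NonUnitalNormedRing A] [NormedSpace ℂ A] : Prop :=
  ∀ I : Submodule ℂ A, IsClosed (I : Set A) → (∀ a : A, ∀ y ∈ I, a * y ∈ I ∧ y * a ∈ I) →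
    I ≠ ⊤ → ∀ x : A, specRadQuot I x = ⨅ y : I, specRad (x + y)

end Defs

/-! ### Sanity checks for the definitions -/

lemma specRad_le_gen {A : Type u} [NonUnitalNormedRing A] (x : A) (n : ℕ) :
    specRad x ≤ ‖pw x n‖ ^ ((1 : ℝ) / (n + 1)) :=
  ciInf_le ⟨0, by rintro _ ⟨n, rfl⟩; positivity⟩ n

lemma pw_eq_pow {B : Type u} [NormedRing B] (x : B) (n : ℕ) : pw x n = x ^ (n + 1) := by
  induction n with
  | zero => simp [pw]
  | succ n ih => rw [pw, ih, ← pow_succ]

theorem specRad_eq_spectralRadius {B : Type u} [NormedRing B] [NormedAlgebra ℂ B]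
    [CompleteSpace B] [NormOneClass B] (x : B) :
    ENNReal.ofReal (specRad x) = spectralRadius ℂ x := by
  apply le_antisymm
  · refine ge_of_tendsto (spectrum.pow_norm_pow_one_div_tendsto_nhds_spectralRadius x) ?_
    filter_upwards [eventually_ge_atTop 1] with n hn
    obtain ⟨m, rfl⟩ : ∃ m, n = m + 1 := ⟨n - 1, by omega⟩
    apply ENNReal.ofReal_le_ofReal
    have h := specRad_le_gen x m
    rw [pw_eq_pow] at h
    push_cast
    exact h
  · have hfin : spectralRadius ℂ x ≠ ⊤ :=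
      ((spectrum.spectralRadius_le_nnnorm (𝕜 := ℂ) x).trans_lt ENNReal.coe_lt_top).ne
    rw [← ENNReal.ofReal_toReal hfin]
    apply ENNReal.ofReal_le_ofReal
    apply le_ciInf
    intro n
    have h := spectrum.spectralRadius_le_pow_nnnorm_pow_one_div ℂ x n
    rw [nnnorm_one, ENNReal.coe_one, ENNReal.one_rpow, mul_one] at h
    have h2 : ((‖x ^ (n + 1)‖₊ : ℝ≥0∞) ^ (1 / (n + 1) : ℝ))
        = ENNReal.ofReal (‖x ^ (n + 1)‖ ^ ((1 : ℝ) / (n + 1))) := by
      rw [← ENNReal.ofReal_rpow_of_nonneg (norm_nonneg _) (by positivity), ofReal_norm]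
      rfl
    rw [h2] at h
    rw [pw_eq_pow]
    exact ENNReal.toReal_le_of_le_ofReal (by positivity) h

theorem specRadQuot_eq {B : Type u} [NormedCommRing B] [NormedAlgebra ℂ B] (I : Ideal B)
    [hI : IsClosed (I : Set B)] (x : B) :
    specRadQuot (I.restrictScalars ℂ) x = specRad (Ideal.Quotient.mk I x) := by
  unfold specRadQuot specRad
  congr 1
  funext n
  have h1 : pw (Ideal.Quotient.mk I x) n = Ideal.Quotient.mk I (pw x n) := by
    rw [pw_eq_pow, pw_eq_pow, map_pow]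
  rw [h1]
  congr 1
  exact (QuotientAddGroup.norm_mk (S := I.toAddSubgroup) (pw x n)).symm

theorem specRadQuot_le_iInf {A : Type u} [NonUnitalNormedRing A] [NormedSpace ℂ A]
    (I : Submodule ℂ A) (hI : ∀ a : A, ∀ y ∈ I, a * y ∈ I ∧ y * a ∈ I) (x : A) :
    specRadQuot I x ≤ ⨅ y : I, specRad (x + y) := by
  apply le_ciInf
  rintro ⟨y, hy⟩
  apply le_ciInf
  intro n
  have hc : ∀ n, pw (x + y) n - pw x n ∈ I := by
    intro n
    induction n with
    | zero => simpa [pw] using hy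
    | succ n ih =>
      have e : pw (x + y) (n + 1) - pw x (n + 1)
          = (pw (x + y) n - pw x n) * x + pw (x + y) n * y := by
        simp only [pw]
        rw [sub_mul, mul_add]
        abel
      rw [e]
      exact I.add_mem (hI x _ ih).2 (hI _ y hy).1
  have h1 : Metric.infDist (pw x n) (I : Set A) ≤ ‖pw (x + y) n‖ := by
    have hm : -(pw (x + y) n - pw x n) ∈ (I : Set A) := I.neg_mem (hc n)
    refine (Metric.infDist_le_dist_of_mem hm).trans (le_of_eq ?_)
    rw [dist_eq_norm]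
    congr 1
    abel
  refine (ciInf_le ⟨0, ?_⟩ n).trans ?_
  · rintro _ ⟨n, rfl⟩; exact Real.rpow_nonneg Metric.infDist_nonneg _
  · have h0 : 0 ≤ Metric.infDist (pw x n) (I : Set A) := Metric.infDist_nonneg
    simp only
    gcongr

theorem isSR_complex : IsSR ℂ := by
  intro I _ _ hI x
  have hbot : I = ⊥ := by
    by_contra h
    obtain ⟨y, hy, hy0⟩ := Submodule.exists_mem_ne_zero_of_ne_bot h
    apply hI
    rw [Submodule.eq_top_iff']
    intro z
    have := I.smul_mem (z / y) hy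
    rwa [smul_eq_mul, div_mul_cancel₀ _ hy0] at this
  subst hbot
  have h1 : specRadQuot (⊥ : Submodule ℂ ℂ) x = specRad x := by
    unfold specRadQuot specRad
    congr 1
    funext n
    rw [Submodule.bot_coe, Metric.infDist_singleton, dist_zero_right]
  rw [h1]
  have h2 : ∀ y : (⊥ : Submodule ℂ ℂ), specRad (x + y) = specRad x := by
    intro y
    rw [show (y : ℂ) = 0 from (Submodule.mem_bot ℂ).mp y.2, add_zero]
  simp only [h2]
  exact (ciInf_const).symm

/-! ### Integrals -/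

/-- local integrability of a radial power -/
lemma radial_int {f : ℝ → ℝ} {p r : ℝ} (hp : -1 < p) (hr : 0 < r)
    (hf : ∀ y, 0 < y → y * f y = y ^ p) :
    IntegrableOn (fun z : ℂ => f ‖z‖) (ball 0 r) := by
  rw [integrableOn_fun_norm_addHaar (μ := (volume : Measure ℂ)) (f := f) (r := r)]
  have h1 : IntegrableOn (fun y : ℝ => y ^ p) (Set.Ioo 0 r) := by
    have h := intervalIntegral.intervalIntegrable_rpow' (a := 0) (b := r) hp
    rw [intervalIntegrable_iff_integrableOn_Ioc_of_le hr.le] at h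
    exact h.mono_set Set.Ioo_subset_Ioc_self
  refine h1.congr_fun (fun y hy => ?_) measurableSet_Ioo
  simp only [Complex.finrank_real_complex, Nat.add_one_sub_one, pow_one, smul_eq_mul]
  exact (hf y hy.1).symm

noncomputable def q1 (y : ℝ) : ℝ := y⁻¹
noncomputable def q3 (y : ℝ) : ℝ := (Real.sqrt y ^ 3)⁻¹

lemma q1_int {r : ℝ} (hr : 0 < r) : IntegrableOn (fun z : ℂ => q1 ‖z‖) (ball 0 r) := by
  apply radial_int (p := 0) (by norm_num) hr
  intro y hy
  rw [Real.rpow_zero, q1, mul_inv_cancel₀ hy.ne']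

lemma q3_int {r : ℝ} (hr : 0 < r) : IntegrableOn (fun z : ℂ => q3 ‖z‖) (ball 0 r) := by
  apply radial_int (p := -(1 / 2)) (by norm_num) hr
  intro y hy
  have hs : 0 < Real.sqrt y := Real.sqrt_pos.mpr hy
  have h2 : y = Real.sqrt y ^ 2 := (Real.sq_sqrt hy.le).symm
  rw [Real.rpow_neg hy.le, ← Real.sqrt_eq_rpow, q3]
  nth_rewrite 1 [h2]
  field_simp

lemma shift_int {q : ℝ → ℝ} (hq : ∀ r : ℝ, 0 < r → IntegrableOn (fun z : ℂ => q ‖z‖) (ball 0 r))
    (hq0 : ∀ y, 0 ≤ y → 0 ≤ q y) {R ρ : ℝ} (hρ : 0 < ρ) {w : ℂ} (hw : ‖w‖ + R < ρ) :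
    IntegrableOn (fun μ : ℂ => q ‖w - μ‖) (closedBall 0 R) ∧
      ∫ μ in closedBall (0 : ℂ) R, q ‖w - μ‖ ≤ ∫ z in ball (0 : ℂ) ρ, q ‖z‖ := by
  have hG : Integrable ((ball (0 : ℂ) ρ).indicator (fun z : ℂ => q ‖z‖)) :=
    (integrable_indicator_iff measurableSet_ball).mpr (hq ρ hρ)
  have hG' : Integrable (fun μ : ℂ => (ball (0 : ℂ) ρ).indicator (fun z : ℂ => q ‖z‖) (w - μ)) :=
    hG.comp_sub_left w
  have hmem : ∀ μ ∈ closedBall (0 : ℂ) R, w - μ ∈ ball (0 : ℂ) ρ := by
    intro μ hμ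
    rw [mem_closedBall_zero_iff] at hμ
    rw [mem_ball_zero_iff]
    calc ‖w - μ‖ ≤ ‖w‖ + ‖μ‖ := norm_sub_le _ _
      _ ≤ ‖w‖ + R := by gcongr
      _ < ρ := hw
  have hEq : Set.EqOn (fun μ : ℂ => (ball (0 : ℂ) ρ).indicator (fun z : ℂ => q ‖z‖) (w - μ))
      (fun μ : ℂ => q ‖w - μ‖) (closedBall 0 R) := by
    intro μ hμ
    simp only
    rw [Set.indicator_of_mem (hmem μ hμ)]
  refine ⟨hG'.integrableOn.congr_fun hEq measurableSet_closedBall, ?_⟩
  rw [← setIntegral_congr_fun measurableSet_closedBall hEq]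
  calc ∫ μ in closedBall (0 : ℂ) R, (ball (0 : ℂ) ρ).indicator (fun z : ℂ => q ‖z‖) (w - μ)
      ≤ ∫ μ : ℂ, (ball (0 : ℂ) ρ).indicator (fun z : ℂ => q ‖z‖) (w - μ) := by
        apply setIntegral_le_integral hG'
        refine Eventually.of_forall (fun μ => ?_)
        exact Set.indicator_nonneg (fun z _ => hq0 _ (norm_nonneg _)) _
    _ = ∫ z : ℂ, (ball (0 : ℂ) ρ).indicator (fun z : ℂ => q ‖z‖) z :=
        integral_sub_left_eq_self _ volume w
    _ = _ := integral_indicator measurableSet_ball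

lemma q1_nonneg (y : ℝ) (hy : 0 ≤ y) : 0 ≤ q1 y := inv_nonneg.mpr hy
lemma q3_nonneg (y : ℝ) (_hy : 0 ≤ y) : 0 ≤ q3 y := by unfold q3; positivity

/-- difference of Cauchy kernels -/
lemma kernel_diff {s : ℝ} (hs : 0 < s) (z : ℂ) :
    ‖z⁻¹ - (z - s)⁻¹‖ ≤ 2 * Real.sqrt s * (q3 ‖z‖ + q3 ‖z - s‖) := by
  have hss : 0 < Real.sqrt s := Real.sqrt_pos.mpr hs
  have hs2 : s = Real.sqrt s ^ 2 := (Real.sq_sqrt hs.le).symm
  have hns : ‖(s : ℂ)‖ = s := by rw [Complex.norm_real, Real.norm_of_nonneg hs.le]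
  by_cases h0 : z = 0
  · subst h0
    have e1 : ‖(0 : ℂ)⁻¹ - (0 - (s : ℂ))⁻¹‖ = s⁻¹ := by
      rw [inv_zero, zero_sub, zero_sub, inv_neg, neg_neg, norm_inv, hns]
    have e2 : q3 ‖(0 : ℂ) - s‖ = (Real.sqrt s ^ 3)⁻¹ := by
      rw [zero_sub, norm_neg, hns, q3]
    rw [e1, e2]
    have e3 : q3 ‖(0 : ℂ)‖ = 0 := by simp [q3]
    rw [e3, zero_add]
    have e4 : 2 * Real.sqrt s * (Real.sqrt s ^ 3)⁻¹ = 2 * s⁻¹ := by
      nth_rewrite 3 [hs2]
      field_simp
    rw [e4]
    have : 0 < s⁻¹ := by positivity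
    linarith
  by_cases h1 : z - s = 0
  · have hz : z = s := sub_eq_zero.mp h1
    have e1 : ‖z⁻¹ - (z - s)⁻¹‖ = s⁻¹ := by
      rw [h1, inv_zero, sub_zero, norm_inv, hz, hns]
    have e2 : q3 ‖z‖ = (Real.sqrt s ^ 3)⁻¹ := by
      rw [hz, hns, q3]
    rw [e1, e2, h1]
    have e3 : q3 ‖(0 : ℂ)‖ = 0 := by simp [q3]
    rw [e3, add_zero]
    have e4 : 2 * Real.sqrt s * (Real.sqrt s ^ 3)⁻¹ = 2 * s⁻¹ := by
      nth_rewrite 3 [hs2]
      field_simp
    rw [e4]
    have : 0 < s⁻¹ := by positivity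
    linarith
  · have ha : 0 < ‖z‖ := norm_pos_iff.mpr h0
    have hb : 0 < ‖z - s‖ := norm_pos_iff.mpr h1
    have e1 : z⁻¹ - (z - s)⁻¹ = -(s : ℂ) / (z * (z - s)) := by
      field_simp
      ring
    rw [e1, norm_div, norm_neg, norm_mul, hns]
    have htri : s ≤ ‖z‖ + ‖z - s‖ := by
      calc s = ‖z - (z - s)‖ := by rw [sub_sub_cancel, hns]
        _ ≤ ‖z‖ + ‖z - s‖ := norm_sub_le _ _
    set a := Real.sqrt ‖z‖ with haa
    set b := Real.sqrt ‖z - s‖ with hbb
    have hap : 0 < a := Real.sqrt_pos.mpr ha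
    have hbp : 0 < b := Real.sqrt_pos.mpr hb
    have ha2 : ‖z‖ = a ^ 2 := (Real.sq_sqrt ha.le).symm
    have hb2 : ‖z - s‖ = b ^ 2 := (Real.sq_sqrt hb.le).symm
    have hsab : Real.sqrt s ≤ a + b := by
      apply Real.sqrt_le_iff.mpr
      refine ⟨by positivity, ?_⟩
      rw [ha2, hb2] at htri
      nlinarith [mul_pos hap hbp]
    have hq : q3 ‖z‖ = (a ^ 3)⁻¹ := rfl
    have hq' : q3 ‖z - s‖ = (b ^ 3)⁻¹ := rfl
    rw [hq, hq', ha2, hb2]
    rw [div_le_iff₀ (by positivity)]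
    have e2 : 2 * Real.sqrt s * ((a ^ 3)⁻¹ + (b ^ 3)⁻¹) * (a ^ 2 * b ^ 2)
        = 2 * Real.sqrt s * ((a ^ 3 + b ^ 3) / (a * b)) := by
      field_simp
      ring
    rw [e2]
    have e3 : a + b ≤ (a ^ 3 + b ^ 3) / (a * b) := by
      rw [le_div_iff₀ (by positivity)]
      nlinarith [mul_nonneg (add_pos hap hbp).le (sq_nonneg (a - b))]
    calc s = Real.sqrt s * Real.sqrt s := (Real.mul_self_sqrt hs.le).symm
      _ ≤ Real.sqrt s * ((a ^ 3 + b ^ 3) / (a * b)) := by
          gcongr; exact hsab.trans e3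
      _ ≤ 2 * Real.sqrt s * ((a ^ 3 + b ^ 3) / (a * b)) := by
          have : 0 ≤ Real.sqrt s * ((a ^ 3 + b ^ 3) / (a * b)) := by positivity
          linarith

lemma ang_inner {w : ℂ} {r : ℝ} (hr : 0 < r) (h : r < ‖w‖) :
    ∫ θ in (-π)..π, (w - circleMap 0 r θ)⁻¹ = 2 * π * w⁻¹ := by
  have hper : Function.Periodic (fun θ : ℝ => (w - circleMap 0 r θ)⁻¹) (2 * π) := by
    intro θ; simp only [periodic_circleMap 0 r θ]
  have h1 := hper.intervalIntegral_add_eq (-π) 0
  have e1 : -π + 2 * π = π := by ring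
  rw [e1, zero_add] at h1
  rw [h1]
  have hd : DiffContOnCl ℂ (fun z => (w - z)⁻¹) (ball 0 |r|) := by
    apply DifferentiableOn.diffContOnCl
    intro z hz
    have hz' : ‖z‖ ≤ r := by
      have := closure_ball_subset_closedBall hz
      rwa [mem_closedBall_zero_iff, abs_of_pos hr] at this
    apply DifferentiableAt.differentiableWithinAt
    apply DifferentiableAt.inv (by fun_prop)
    intro h0
    rw [sub_eq_zero] at h0
    rw [← h0] at hz'
    linarith
  have h2 := hd.circleAverage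
  rw [Real.circleAverage_def, sub_zero] at h2
  have h3 : (2 * π : ℝ) ≠ 0 := by positivity
  have h4 : ∫ θ in (0 : ℝ)..2 * π, (w - circleMap 0 r θ)⁻¹
      = (2 * π : ℝ) • ((2 * π : ℝ)⁻¹ • ∫ θ in (0 : ℝ)..2 * π, (w - circleMap 0 r θ)⁻¹) := by
    rw [smul_smul, mul_inv_cancel₀ h3, one_smul]
  rw [h4, h2, Complex.real_smul]
  push_cast
  ring

lemma ang_outer {w : ℂ} {r : ℝ} (hr : 0 < r) (h : ‖w‖ < r) :
    ∫ θ in (-π)..π, (w - circleMap 0 r θ)⁻¹ = 0 := by
  have hneg : ∫ θ in (-π)..π, (w - circleMap 0 r θ)⁻¹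
      = ∫ θ in (-π)..π, (w - circleMap 0 r (-θ))⁻¹ := by
    have := intervalIntegral.integral_comp_neg (a := -π) (b := π)
      (f := fun θ => (w - circleMap 0 r θ)⁻¹)
    rw [neg_neg] at this
    exact this.symm
  rw [hneg]
  set g : ℂ → ℂ := fun z => z / (w * z - r ^ 2) with hg
  have hrC : (r : ℂ) ≠ 0 := by exact_mod_cast hr.ne'
  have e0 : ∀ θ : ℝ, (w - circleMap 0 r (-θ))⁻¹ = g (circleMap 0 r θ) := by
    intro θ
    have h1 : circleMap 0 r (-θ) = (r : ℂ) ^ 2 / circleMap 0 r θ := by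
      simp only [circleMap, zero_add]
      rw [eq_div_iff (mul_ne_zero hrC (Complex.exp_ne_zero _))]
      have : (r : ℂ) * Complex.exp (↑(-θ) * Complex.I) * (↑r * Complex.exp (↑θ * Complex.I))
          = (r : ℂ) ^ 2 * (Complex.exp (↑(-θ) * Complex.I) * Complex.exp (↑θ * Complex.I)) := by ring
      rw [this, ← Complex.exp_add]
      simp
    have h2 : circleMap 0 r θ ≠ 0 := by
      simp only [circleMap, zero_add]
      exact mul_ne_zero hrC (Complex.exp_ne_zero _)
    rw [h1, hg]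
    simp only
    have h3 : w - (r : ℂ) ^ 2 / circleMap 0 r θ
        = (w * circleMap 0 r θ - (r : ℂ) ^ 2) / circleMap 0 r θ := by
      field_simp
    rw [h3, inv_div]
  simp only [e0]
  have hper : Function.Periodic (fun θ : ℝ => g (circleMap 0 r θ)) (2 * π) := by
    intro θ; simp only [periodic_circleMap 0 r θ]
  have h1 := hper.intervalIntegral_add_eq (-π) 0
  have e1 : -π + 2 * π = π := by ring
  rw [e1, zero_add] at h1
  rw [h1]
  have hd : DiffContOnCl ℂ g (ball 0 |r|) := by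
    apply DifferentiableOn.diffContOnCl
    intro z hz
    have hz' : ‖z‖ ≤ r := by
      have := closure_ball_subset_closedBall hz
      rwa [mem_closedBall_zero_iff, abs_of_pos hr] at this
    apply DifferentiableAt.differentiableWithinAt
    rw [hg]
    apply DifferentiableAt.div (by fun_prop) (by fun_prop)
    intro h0
    rw [sub_eq_zero] at h0
    have h5 : ‖w * z‖ = r ^ 2 := by
      rw [h0, norm_pow, Complex.norm_real, Real.norm_of_nonneg hr.le]
    rw [norm_mul] at h5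
    have h6 : ‖w‖ * ‖z‖ ≤ ‖w‖ * r := by gcongr
    nlinarith
  have h2 := hd.circleAverage
  rw [Real.circleAverage_def] at h2
  have h3 : (2 * π : ℝ) ≠ 0 := by positivity
  have h4 : ∫ θ in (0 : ℝ)..2 * π, g (circleMap 0 r θ)
      = (2 * π : ℝ) • ((2 * π : ℝ)⁻¹ • ∫ θ in (0 : ℝ)..2 * π, g (circleMap 0 r θ)) := by
    rw [smul_smul, mul_inv_cancel₀ h3, one_smul]
  rw [h4, h2, hg]
  simp

lemma kernel_integrable {R : ℝ} (w : ℂ) :
    IntegrableOn (fun μ : ℂ => (w - μ)⁻¹) (closedBall 0 R) := by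
  have h := (shift_int (q := q1) (fun r hr => q1_int hr) q1_nonneg
    (R := R) (ρ := ‖w‖ + |R| + 1) (by positivity) (w := w)
    (by have := le_abs_self R; linarith)).1
  refine Integrable.mono' h ?_ (Eventually.of_forall (fun μ => ?_))
  · exact (measurable_const.sub measurable_id).inv.aestronglyMeasurable
  · rw [norm_inv]; exact le_rfl

/-- the Cauchy transform of a disc -/
lemma disc_cauchy {R : ℝ} {w : ℂ} (hw : ‖w‖ ≤ R) :
    ∫ μ in closedBall (0 : ℂ) R, (w - μ)⁻¹ = π * (starRingEnd ℂ) w := by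
  set F : ℂ → ℂ := (closedBall (0 : ℂ) R).indicator (fun μ => (w - μ)⁻¹) with hF
  have hFi : Integrable F := (integrable_indicator_iff measurableSet_closedBall).mpr
    (kernel_integrable w)
  have h0 : ∫ μ in closedBall (0 : ℂ) R, (w - μ)⁻¹ = ∫ μ, F μ :=
    (integral_indicator measurableSet_closedBall).symm
  rw [h0, ← Complex.integral_comp_polarCoord_symm]
  have hsymm : ∀ p : ℝ × ℝ, Complex.polarCoord.symm p = circleMap 0 p.1 p.2 := by
    intro p
    rw [Complex.polarCoord_symm_apply, circleMap, zero_add, Complex.exp_mul_I]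
    push_cast
    rfl
  have htarget : Complex.polarCoord.target = Set.Ioi (0 : ℝ) ×ˢ Set.Ioo (-π) π := rfl
  have htarget' : polarCoord.target = Set.Ioi (0 : ℝ) ×ˢ Set.Ioo (-π) π := rfl
  have hFm : Measurable F := by
    rw [hF]
    exact (measurable_const.sub measurable_id).inv.indicator measurableSet_closedBall
  have hcm : Measurable (fun p : ℝ × ℝ => circleMap 0 p.1 p.2) := by
    unfold circleMap
    fun_prop
  have hint : IntegrableOn (fun p : ℝ × ℝ => p.1 • F (Complex.polarCoord.symm p))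
      (Set.Ioi (0 : ℝ) ×ˢ Set.Ioo (-π) π) := by
    refine ⟨?_, ?_⟩
    · simp only [hsymm]
      exact (measurable_fst.smul (hFm.comp hcm)).aestronglyMeasurable
    · have h1 := Complex.lintegral_comp_polarCoord_symm (fun z => ‖F z‖ₑ)
      rw [htarget'] at h1
      have h2 : ∫⁻ p in Set.Ioi (0 : ℝ) ×ˢ Set.Ioo (-π) π, ‖p.1 • F (Complex.polarCoord.symm p)‖ₑ
          = ∫⁻ p in Set.Ioi (0 : ℝ) ×ˢ Set.Ioo (-π) π,
            ENNReal.ofReal p.1 • ‖F (Complex.polarCoord.symm p)‖ₑ := by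
        apply setLIntegral_congr_fun (measurableSet_Ioi.prod measurableSet_Ioo)
        intro p hp
        have hp1 : 0 < p.1 := hp.1
        simp only
        rw [enorm_smul, Real.enorm_eq_ofReal hp1.le, smul_eq_mul]
      change ∫⁻ p in Set.Ioi (0 : ℝ) ×ˢ Set.Ioo (-π) π, ‖p.1 • F (Complex.polarCoord.symm p)‖ₑ < ⊤
      rw [h2, h1]
      exact hFi.2
  rw [htarget', Measure.volume_eq_prod, setIntegral_prod _ hint]
  have hangle : ∀ r : ℝ, 0 < r → r ≠ ‖w‖ →
      ∫ θ in Set.Ioo (-π) π, (r, θ).1 • F (Complex.polarCoord.symm (r, θ))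
        = (Set.Ioo (0 : ℝ) ‖w‖).indicator (fun r : ℝ => (2 * π * w⁻¹ : ℂ) * r) r := by
    intro r hr hne
    simp only [hsymm]
    have hnorm : ∀ θ : ℝ, ‖circleMap 0 r θ‖ = r := by
      intro θ
      rw [norm_circleMap_zero, abs_of_pos hr]
    by_cases hrR : r ≤ R
    · have h1 : ∀ θ : ℝ, F (circleMap 0 r θ) = (w - circleMap 0 r θ)⁻¹ := by
        intro θ
        rw [hF, Set.indicator_of_mem]
        rw [mem_closedBall_zero_iff, hnorm]
        exact hrR
      simp only [h1]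
      rw [integral_smul, ← integral_Ioc_eq_integral_Ioo,
        ← intervalIntegral.integral_of_le (by linarith [Real.pi_pos])]
      rcases lt_or_gt_of_ne hne with h2 | h2
      · rw [ang_inner hr h2, Set.indicator_of_mem (show r ∈ Set.Ioo (0 : ℝ) ‖w‖ from ⟨hr, h2⟩),
          Complex.real_smul]
        ring
      · rw [ang_outer hr h2, Set.indicator_of_notMem (fun h => by
          have := h.2; linarith), smul_zero]
    · have h1 : ∀ θ : ℝ, F (circleMap 0 r θ) = 0 := by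
        intro θ
        rw [hF, Set.indicator_of_notMem]
        rw [mem_closedBall_zero_iff, hnorm]
        exact hrR
      simp only [h1, smul_zero, integral_zero]
      rw [Set.indicator_of_notMem (fun h => by have := h.2; linarith)]
  have houter : ∫ r in Set.Ioi (0 : ℝ),
      ∫ θ in Set.Ioo (-π) π, (r, θ).1 • F (Complex.polarCoord.symm (r, θ))
      = ∫ r in Set.Ioi (0 : ℝ), (Set.Ioo (0 : ℝ) ‖w‖).indicator
          (fun r : ℝ => (2 * π * w⁻¹ : ℂ) * r) r := by
    apply integral_congr_ae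
    have hne : ∀ᵐ r : ℝ ∂(volume.restrict (Set.Ioi (0 : ℝ))), r ≠ ‖w‖ := by
      apply ae_restrict_of_ae
      rw [ae_iff]
      simp
    have hpos : ∀ᵐ r : ℝ ∂(volume.restrict (Set.Ioi (0 : ℝ))), r ∈ Set.Ioi (0 : ℝ) :=
      ae_restrict_mem measurableSet_Ioi
    filter_upwards [hne, hpos] with r h1 h2
    exact hangle r h2 h1
  rw [houter, setIntegral_indicator measurableSet_Ioo]
  have hinter : Set.Ioi (0 : ℝ) ∩ Set.Ioo 0 ‖w‖ = Set.Ioo 0 ‖w‖ := by
    ext x; simp only [Set.mem_inter_iff, Set.mem_Ioi, Set.mem_Ioo]; tauto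
  rw [hinter, ← integral_Ioc_eq_integral_Ioo, ← intervalIntegral.integral_of_le (norm_nonneg _),
    intervalIntegral.integral_const_mul, intervalIntegral.integral_ofReal, integral_id]
  by_cases hw0 : w = 0
  · subst hw0; simp
  · have h5 : ((‖w‖ : ℂ)) ^ 2 = (starRingEnd ℂ) w * w := by
      rw [Complex.conj_mul']
    push_cast
    rw [h5]
    field_simp
    ring

/-! ### Algebra -/

lemma pow_bound {a b C : ℝ} (ha : 0 ≤ a) (hb : 0 ≤ b) (h : ∀ n : ℕ, a ^ (n + 1) ≤ C * b ^ (n + 1)) :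
    a ≤ b := by
  by_contra hab
  push Not at hab
  rcases hb.eq_or_lt with h0 | h0
  · subst h0
    have := h 0
    simp at this
    linarith
  · have h1 : 1 < a / b := by rw [one_lt_div h0]; exact hab
    have h2 := tendsto_pow_atTop_atTop_of_one_lt h1
    obtain ⟨n, hn⟩ := (h2.comp (tendsto_add_atTop_nat 1)).eventually_gt_atTop C |>.exists
    have h3 := h n
    simp only [Function.comp] at hn
    rw [div_pow, lt_div_iff₀ (by positivity)] at hn
    linarith

section Comm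
set_option linter.unusedSectionVars false

variable {A : Type u} [NonUnitalNormedCommRing A] [NormedSpace ℂ A] [IsScalarTower ℂ A A]
  [SMulCommClass ℂ A A]

lemma norm_pw_le (x : A) (n : ℕ) : ‖pw x n‖ ≤ ‖x‖ ^ (n + 1) := by
  induction n with
  | zero => simp [pw]
  | succ n ih =>
    calc ‖pw x (n + 1)‖ ≤ ‖pw x n‖ * ‖x‖ := norm_mul_le _ _
      _ ≤ ‖x‖ ^ (n + 1) * ‖x‖ := by gcongr
      _ = _ := (pow_succ _ _).symm

lemma specRad_bdd (x : A) : BddBelow (Set.range fun n : ℕ => ‖pw x n‖ ^ ((1 : ℝ) / (n + 1))) :=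
  ⟨0, by rintro _ ⟨n, rfl⟩; positivity⟩

lemma specRad_le (x : A) (n : ℕ) : specRad x ≤ ‖pw x n‖ ^ ((1 : ℝ) / (n + 1)) :=
  ciInf_le (specRad_bdd x) n

lemma specRad_nonneg (x : A) : 0 ≤ specRad x := Real.iInf_nonneg (fun n => by positivity)

lemma specRadQuot_le (I : Submodule ℂ A) (x : A) (n : ℕ) :
    specRadQuot I x ≤ Metric.infDist (pw x n) (I : Set A) ^ ((1 : ℝ) / (n + 1)) :=
  ciInf_le ⟨0, by rintro _ ⟨n, rfl⟩; exact Real.rpow_nonneg Metric.infDist_nonneg _⟩ n

/-- multiplicative functionals, the zero functional included -/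
def MulFun (A : Type u) [NonUnitalNormedCommRing A] [NormedSpace ℂ A] : Set (WeakDual ℂ A) :=
  {φ | ∀ x y : A, φ (x * y) = φ x * φ y}

lemma mulFun_pw {φ : WeakDual ℂ A} (hφ : φ ∈ MulFun A) (x : A) (n : ℕ) :
    φ (pw x n) = φ x ^ (n + 1) := by
  induction n with
  | zero => simp [pw]
  | succ n ih =>
    change φ (pw x n * x) = _
    rw [hφ, ih, ← pow_succ]

lemma mulFun_norm_le {φ : WeakDual ℂ A} (hφ : φ ∈ MulFun A) (x : A) : ‖φ x‖ ≤ ‖x‖ := by
  have hC : ∀ y : A, ‖φ y‖ ≤ ‖WeakDual.toStrongDual φ‖ * ‖y‖ := fun y =>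
    (WeakDual.toStrongDual φ).le_opNorm y
  apply pow_bound (norm_nonneg _) (norm_nonneg _) (C := ‖WeakDual.toStrongDual φ‖)
  intro n
  calc ‖φ x‖ ^ (n + 1) = ‖φ (pw x n)‖ := by rw [mulFun_pw hφ, norm_pow]
    _ ≤ ‖WeakDual.toStrongDual φ‖ * ‖pw x n‖ := hC _
    _ ≤ ‖WeakDual.toStrongDual φ‖ * ‖x‖ ^ (n + 1) := by gcongr; exact norm_pw_le x n

lemma mulFun_le_specRad {φ : WeakDual ℂ A} (hφ : φ ∈ MulFun A) (x : A) : ‖φ x‖ ≤ specRad x := by
  apply le_ciInf
  intro n
  have h1 : ‖φ x‖ ^ (n + 1) ≤ ‖pw x n‖ := by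
    rw [← norm_pow, ← mulFun_pw hφ]; exact mulFun_norm_le hφ _
  have h2 : ‖φ x‖ = (‖φ x‖ ^ (n + 1)) ^ ((1 : ℝ) / (n + 1)) := by
    rw [← Real.rpow_natCast, ← Real.rpow_mul (norm_nonneg _)]
    push_cast
    rw [mul_one_div_cancel (by positivity), Real.rpow_one]
  rw [h2]
  gcongr

/-- the linear map `a ↦ f a - lam a` -/
def lin (f : A) (lam : ℂ) : A →ₗ[ℂ] A := LinearMap.mulLeft ℂ f - lam • LinearMap.id

lemma lin_apply (f : A) (lam : ℂ) (a : A) : lin f lam a = f * a - lam • a := by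
  simp [lin]

/-- the closed ideal generated by `(f - lam) A` -/
def idl (f : A) (lam : ℂ) : Submodule ℂ A := (LinearMap.range (lin f lam)).topologicalClosure

lemma mem_idl_iff {f : A} {lam : ℂ} {y : A} :
    y ∈ idl f lam ↔ y ∈ closure (Set.range (lin f lam)) := by
  rw [idl, ← SetLike.mem_coe, Submodule.topologicalClosure_coe]
  rfl

lemma idl_closed (f : A) (lam : ℂ) : IsClosed (idl f lam : Set A) :=
  Submodule.isClosed_topologicalClosure _

lemma lin_mem (f : A) (lam : ℂ) (a : A) : f * a - lam • a ∈ idl f lam := by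
  rw [mem_idl_iff, ← lin_apply]
  exact subset_closure ⟨a, rfl⟩

lemma mul_mem_idl {f : A} {lam : ℂ} (a : A) {y : A} (hy : y ∈ idl f lam) :
    a * y ∈ idl f lam := by
  rw [mem_idl_iff] at hy ⊢
  refine map_mem_closure (continuous_const_mul a) hy ?_
  rintro _ ⟨b, rfl⟩
  refine ⟨a * b, ?_⟩
  rw [lin_apply, lin_apply, mul_sub, mul_smul_comm, mul_left_comm]

lemma mem_idl_mul {f : A} {lam : ℂ} (a : A) {y : A} (hy : y ∈ idl f lam) :
    y * a ∈ idl f lam := by
  rw [mul_comm]; exact mul_mem_idl a hy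

lemma idl_approx {f : A} {lam : ℂ} {y : A} (hy : y ∈ idl f lam) {η : ℝ} (hη : 0 < η) :
    ∃ a : A, ‖y - (f * a - lam • a)‖ < η := by
  rw [mem_idl_iff, Metric.mem_closure_iff] at hy
  obtain ⟨_, ⟨a, rfl⟩, ha⟩ := hy η hη
  exact ⟨a, by rwa [lin_apply, dist_eq_norm] at ha⟩

/-- `h ^ n * x` -/
def gp (h x : A) : ℕ → A
  | 0 => x
  | n + 1 => h * gp h x n

lemma norm_gp_le (h x : A) (n : ℕ) : ‖gp h x n‖ ≤ ‖h‖ ^ n * ‖x‖ := by
  induction n with
  | zero => simp [gp]
  | succ n ih =>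
    calc ‖gp h x (n + 1)‖ ≤ ‖h‖ * ‖gp h x n‖ := norm_mul_le _ _
      _ ≤ ‖h‖ * (‖h‖ ^ n * ‖x‖) := by gcongr
      _ = _ := by rw [pow_succ]; ring

/-- the basic splitting in an SR-algebra -/
lemma sr_split (hA : IsSR A) (f h : A) {lam lam' : ℂ} (hne : lam ≠ lam') {η : ℝ} (hη : 0 < η) :
    ∃ a b v : A, specRad v ≤ ‖h‖ + 1 ∧ ‖v - h - (f * a - lam • a)‖ < η ∧
      ‖v - (f * b - lam' • b)‖ < η := by
  set x : A := (lam - lam')⁻¹ • (f * h - lam' • h) with hx
  have hne' : lam - lam' ≠ 0 := sub_ne_zero.mpr hne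
  have hx1 : x ∈ idl f lam' := Submodule.smul_mem _ _ (lin_mem _ _ _)
  have hx2 : x - h ∈ idl f lam := by
    have e : x - h = (lam - lam')⁻¹ • (f * h - lam • h) := by
      have e1 : h = (lam - lam')⁻¹ • ((lam - lam') • h) := by
        rw [smul_smul, inv_mul_cancel₀ hne', one_smul]
      calc x - h = (lam - lam')⁻¹ • (f * h - lam' • h) - (lam - lam')⁻¹ • ((lam - lam') • h) := by
            rw [← e1]
        _ = (lam - lam')⁻¹ • ((f * h - lam' • h) - (lam - lam') • h) := by rw [← smul_sub]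
        _ = _ := by
            congr 1
            rw [sub_smul]
            abel
    rw [e]
    exact Submodule.smul_mem _ _ (lin_mem _ _ _)
  set J : Submodule ℂ A := idl f lam ⊓ idl f lam' with hJ
  have hJc : IsClosed (J : Set A) := by
    rw [hJ, Submodule.coe_inf]
    exact (idl_closed f lam).inter (idl_closed f lam')
  have hJi : ∀ a : A, ∀ y ∈ J, a * y ∈ J ∧ y * a ∈ J := by
    intro a y hy
    rw [hJ, Submodule.mem_inf] at hy
    refine ⟨?_, ?_⟩
    · rw [hJ, Submodule.mem_inf]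
      exact ⟨mul_mem_idl a hy.1, mul_mem_idl a hy.2⟩
    · rw [hJ, Submodule.mem_inf]
      exact ⟨mem_idl_mul a hy.1, mem_idl_mul a hy.2⟩
  have hgp : ∀ n, gp h x n ∈ idl f lam' := by
    intro n
    induction n with
    | zero => exact hx1
    | succ n ih => exact mul_mem_idl h ih
  have hcong : ∀ n, pw x n - gp h x n ∈ J := by
    intro n
    induction n with
    | zero => simp only [pw, gp, sub_self]; exact J.zero_mem
    | succ n ih =>
      have e : pw x (n + 1) - gp h x (n + 1) = (pw x n - gp h x n) * x + gp h x n * (x - h) := by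
        simp only [pw, gp]
        rw [sub_mul, mul_sub, mul_comm h (gp h x n)]
        abel
      rw [e]
      apply J.add_mem (hJi x _ ih).2
      rw [hJ, Submodule.mem_inf]
      exact ⟨mul_mem_idl _ hx2, mem_idl_mul _ (hgp n)⟩
  have hdist : ∀ n, Metric.infDist (pw x n) (J : Set A) ≤ ‖h‖ ^ n * ‖x‖ := by
    intro n
    refine (Metric.infDist_le_dist_of_mem (hcong n)).trans ?_
    rw [dist_eq_norm, sub_sub_cancel]
    exact norm_gp_le h x n
  have hlt : specRadQuot J x < ‖h‖ + 1 := by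
    by_contra hcon
    push Not at hcon
    have hb : 0 < ‖h‖ + 1 / 2 := by positivity
    have h1 : ‖h‖ + 1 ≤ ‖h‖ + 1 / 2 := by
      apply pow_bound (by positivity) hb.le (C := ‖x‖ / (‖h‖ + 1 / 2))
      intro n
      have h2 : ‖h‖ + 1 ≤ (‖h‖ ^ n * ‖x‖) ^ ((1 : ℝ) / (n + 1)) := by
        refine hcon.trans ((specRadQuot_le J x n).trans ?_)
        have := hdist n
        have h0 : 0 ≤ Metric.infDist (pw x n) (J : Set A) := Metric.infDist_nonneg
        gcongr
      have h3 : (‖h‖ + 1) ^ (n + 1) ≤ ‖h‖ ^ n * ‖x‖ := by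
        calc (‖h‖ + 1) ^ (n + 1) ≤ ((‖h‖ ^ n * ‖x‖) ^ ((1 : ℝ) / (n + 1))) ^ (n + 1) := by
              gcongr
          _ = ‖h‖ ^ n * ‖x‖ := by
              rw [← Real.rpow_natCast, ← Real.rpow_mul (by positivity)]
              push_cast
              rw [one_div_mul_cancel (by positivity), Real.rpow_one]
      calc (‖h‖ + 1) ^ (n + 1) ≤ ‖h‖ ^ n * ‖x‖ := h3
        _ ≤ (‖h‖ + 1 / 2) ^ n * ‖x‖ := by gcongr; linarith
        _ = ‖x‖ / (‖h‖ + 1 / 2) * (‖h‖ + 1 / 2) ^ (n + 1) := by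
            rw [pow_succ]; field_simp
    linarith
  obtain ⟨y, hyJ, hy⟩ : ∃ y ∈ J, specRad (x + y) < ‖h‖ + 1 := by
    by_cases htop : J = ⊤
    · refine ⟨-x, by rw [htop]; exact Submodule.mem_top, ?_⟩
      rw [add_neg_cancel]
      have : specRad (0 : A) ≤ 0 := by
        refine (specRad_le 0 0).trans ?_
        simp [pw]
      have := norm_nonneg h
      linarith
    · rw [hA J hJc hJi htop x] at hlt
      obtain ⟨y, hy⟩ := exists_lt_of_ciInf_lt hlt
      exact ⟨y, y.2, hy⟩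
  have hyJ' := hyJ
  rw [hJ, Submodule.mem_inf] at hyJ'
  have hv1 : x + y - h ∈ idl f lam := by
    have : x + y - h = (x - h) + y := by abel
    rw [this]
    exact Submodule.add_mem _ hx2 hyJ'.1
  have hv2 : x + y ∈ idl f lam' := Submodule.add_mem _ hx1 hyJ'.2
  obtain ⟨a, ha⟩ := idl_approx hv1 hη
  obtain ⟨b, hb⟩ := idl_approx hv2 hη
  exact ⟨a, b, x + y, hy.le, ha, hb⟩

end Comm

section Int
set_option linter.unusedSectionVars false

/-- the error density -/
noncomputable def err (M s η : ℝ) (w μ : ℂ) : ℝ :=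
  M * (2 * Real.sqrt s * (q3 ‖w - μ‖ + q3 ‖w - s - μ‖))
    + 2 * η * (q1 ‖w - μ‖ + q1 ‖w - s - μ‖)

lemma err_bound {M s η R ρ : ℝ} (hM : 0 ≤ M) (hη : 0 ≤ η) (hρ : 0 < ρ) {w : ℂ}
    (h1 : ‖w‖ + R < ρ) (h2 : ‖w - s‖ + R < ρ) :
    IntegrableOn (err M s η w) (closedBall 0 R) ∧
      ∫ μ in closedBall (0 : ℂ) R, err M s η w μ
        ≤ M * (2 * Real.sqrt s * (2 * ∫ z in ball (0 : ℂ) ρ, q3 ‖z‖))
          + 2 * η * (2 * ∫ z in ball (0 : ℂ) ρ, q1 ‖z‖) := by
  obtain ⟨a1, a2⟩ := shift_int (fun r hr => q3_int hr) q3_nonneg hρ h1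
  obtain ⟨b1, b2⟩ := shift_int (fun r hr => q3_int hr) q3_nonneg hρ h2
  obtain ⟨c1, c2⟩ := shift_int (fun r hr => q1_int hr) q1_nonneg hρ h1
  obtain ⟨d1, d2⟩ := shift_int (fun r hr => q1_int hr) q1_nonneg hρ h2
  have e1 : IntegrableOn (fun μ : ℂ => M * (2 * Real.sqrt s * (q3 ‖w - μ‖ + q3 ‖w - s - μ‖)))
      (closedBall 0 R) := (((a1.add b1).const_mul _).const_mul _)
  have e2 : IntegrableOn (fun μ : ℂ => 2 * η * (q1 ‖w - μ‖ + q1 ‖w - s - μ‖))
      (closedBall 0 R) := ((c1.add d1).const_mul _)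
  refine ⟨e1.add e2, ?_⟩
  unfold err
  rw [integral_add e1 e2, integral_const_mul, integral_const_mul, integral_const_mul,
    integral_add a1 b1, integral_add c1 d1]
  have hs : 0 ≤ Real.sqrt s := Real.sqrt_nonneg s
  gcongr
  · linarith
  · linarith

variable {A : Type u} [NonUnitalNormedCommRing A] [NormedSpace ℂ A] [IsScalarTower ℂ A A]
  [SMulCommClass ℂ A A]

/-- pointwise estimate -/
lemma local_est {φ : WeakDual ℂ A} (hφ : φ ∈ MulFun A) {f h a b v : A} {lam μ : ℂ} {s η M : ℝ}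
    (hs : 0 < s) (hv : specRad v ≤ M)
    (ha : ‖v - h - (f * a - lam • a)‖ < η) (hb : ‖v - (f * b - (lam + s) • b)‖ < η)
    (hra : ‖μ - lam‖ * ‖a‖ ≤ η) (hrb : ‖μ - lam‖ * ‖b‖ ≤ η)
    (h1 : φ f - μ ≠ 0) (h2 : φ f - s - μ ≠ 0) :
    ‖φ h * (φ f - μ)⁻¹ - φ (b - a)‖ ≤ err M s η (φ f) μ := by
  set w := φ f with hw
  have hmul : ∀ x y : A, φ (x * y) = φ x * φ y := hφ
  have hE1 : φ (v - h - (f * a - lam • a)) = φ v - φ h - (w - lam) * φ a := by
    rw [map_sub, map_sub, map_sub, map_smul, hmul, smul_eq_mul]; ring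
  have hE2 : φ (v - (f * b - (lam + s) • b)) = φ v - (w - (lam + s)) * φ b := by
    rw [map_sub, map_sub, map_smul, hmul, smul_eq_mul]; ring
  have hn1 : ‖φ v - φ h - (w - lam) * φ a‖ ≤ η := by
    rw [← hE1]; exact (mulFun_norm_le hφ _).trans ha.le
  have hn2 : ‖φ v - (w - (lam + s)) * φ b‖ ≤ η := by
    rw [← hE2]; exact (mulFun_norm_le hφ _).trans hb.le
  have hvM : ‖φ v‖ ≤ M := (mulFun_le_specRad hφ v).trans hv
  have h2' : w - μ - s ≠ 0 := by
    intro h; apply h2; rw [← h]; ring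
  have key : φ h * (w - μ)⁻¹ - φ (b - a)
      = φ v * ((w - μ)⁻¹ - (w - μ - s)⁻¹)
        - ((φ v - φ h - (w - lam) * φ a) + (μ - lam) * φ a) * (w - μ)⁻¹
        + ((φ v - (w - (lam + s)) * φ b) + (μ - lam) * φ b) * (w - μ - s)⁻¹ := by
    rw [map_sub]
    field_simp
    ring
  rw [key]
  have hna : ‖(φ v - φ h - (w - lam) * φ a) + (μ - lam) * φ a‖ ≤ 2 * η := by
    calc _ ≤ ‖φ v - φ h - (w - lam) * φ a‖ + ‖(μ - lam) * φ a‖ := norm_add_le _ _
      _ ≤ η + ‖μ - lam‖ * ‖a‖ := by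
          rw [norm_mul]
          gcongr
          exact mulFun_norm_le hφ _
      _ ≤ 2 * η := by linarith
  have hnb : ‖(φ v - (w - (lam + s)) * φ b) + (μ - lam) * φ b‖ ≤ 2 * η := by
    calc _ ≤ ‖φ v - (w - (lam + s)) * φ b‖ + ‖(μ - lam) * φ b‖ := norm_add_le _ _
      _ ≤ η + ‖μ - lam‖ * ‖b‖ := by
          rw [norm_mul]
          gcongr
          exact mulFun_norm_le hφ _
      _ ≤ 2 * η := by linarith
  have hk := kernel_diff hs (w - μ)
  have hq1 : ‖(w - μ)⁻¹‖ = q1 ‖w - μ‖ := by rw [norm_inv]; rfl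
  have hq2 : ‖(w - μ - s)⁻¹‖ = q1 ‖w - s - μ‖ := by
    rw [norm_inv, show w - μ - (s : ℂ) = w - s - μ by ring]; rfl
  have hq3 : q3 ‖w - μ - s‖ = q3 ‖w - s - μ‖ := by
    rw [show w - μ - (s : ℂ) = w - s - μ by ring]
  rw [hq3] at hk
  have hM : 0 ≤ M := (norm_nonneg _).trans hvM
  have hη : 0 ≤ 2 * η := (norm_nonneg _).trans hna
  calc ‖φ v * ((w - μ)⁻¹ - (w - μ - s)⁻¹)
        - ((φ v - φ h - (w - lam) * φ a) + (μ - lam) * φ a) * (w - μ)⁻¹
        + ((φ v - (w - (lam + s)) * φ b) + (μ - lam) * φ b) * (w - μ - s)⁻¹‖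
      ≤ ‖φ v * ((w - μ)⁻¹ - (w - μ - s)⁻¹)‖
        + ‖((φ v - φ h - (w - lam) * φ a) + (μ - lam) * φ a) * (w - μ)⁻¹‖
        + ‖((φ v - (w - (lam + s)) * φ b) + (μ - lam) * φ b) * (w - μ - s)⁻¹‖ := by
        refine (norm_add_le _ _).trans ?_
        gcongr
        exact norm_sub_le _ _
    _ ≤ M * (2 * Real.sqrt s * (q3 ‖w - μ‖ + q3 ‖w - s - μ‖))
        + 2 * η * q1 ‖w - μ‖ + 2 * η * q1 ‖w - s - μ‖ := by
        rw [norm_mul, norm_mul, norm_mul, hq1, hq2]
        have p1 : 0 ≤ q1 ‖w - μ‖ := q1_nonneg _ (norm_nonneg _)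
        have p2 : 0 ≤ q1 ‖w - s - μ‖ := q1_nonneg _ (norm_nonneg _)
        gcongr
    _ = err M s η w μ := by unfold err; ring



/-- the local approximation property on a set -/
def Good (f h : A) (M s η : ℝ) (T : Set ℂ) : Prop :=
  ∃ c : A, ∀ φ ∈ MulFun A,
    ‖(∫ μ in T, φ h * (φ f - μ)⁻¹) - φ c‖ ≤ ∫ μ in T, err M s η (φ f) μ

lemma good_all (hA : IsSR A) (f h : A) {s η R : ℝ} (hs : 0 < s) (hη : 0 < η) :
    Good f h (‖h‖ + 1) s η (closedBall 0 R) := by
  have hM0 : 0 ≤ ‖h‖ + 1 := by positivity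
  have hint1 : ∀ φ : WeakDual ℂ A,
      IntegrableOn (fun μ : ℂ => φ h * (φ f - μ)⁻¹) (closedBall 0 R) :=
    fun φ => (kernel_integrable (φ f)).const_mul _
  have hint2 : ∀ w : ℂ, IntegrableOn (err (‖h‖ + 1) s η w) (closedBall 0 R) := fun w =>
    (err_bound (ρ := ‖w‖ + ‖w - s‖ + |R| + 1) hM0 hη.le (by positivity)
      (by have := le_abs_self R; have := norm_nonneg (w - (s : ℂ)); linarith)
      (by have := le_abs_self R; have := norm_nonneg w; linarith)).1
  have key : ∃ M, MeasurableSet M ∧ closedBall (0 : ℂ) R ⊆ M ∧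
      ∀ T, MeasurableSet T → T ⊆ M → T ⊆ closedBall 0 R → Good f h (‖h‖ + 1) s η T := by
    refine IsCompact.induction_on (isCompact_closedBall (0 : ℂ) R)
      (p := fun S => ∃ M, MeasurableSet M ∧ S ⊆ M ∧
        ∀ T, MeasurableSet T → T ⊆ M → T ⊆ closedBall 0 R → Good f h (‖h‖ + 1) s η T) ?_ ?_ ?_ ?_
    · refine ⟨∅, MeasurableSet.empty, le_rfl, fun T _ hT _ => ?_⟩
      have : T = ∅ := Set.subset_empty_iff.mp hT
      subst this
      exact ⟨0, fun φ _ => by simp⟩
    · rintro S S' hSS ⟨M, h1, h2, h3⟩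
      exact ⟨M, h1, hSS.trans h2, h3⟩
    · rintro S S' ⟨M, h1, h2, h3⟩ ⟨M', h1', h2', h3'⟩
      refine ⟨M ∪ M', h1.union h1', Set.union_subset_union h2 h2', fun T hT hTM hTB => ?_⟩
      obtain ⟨c, hc⟩ := h3 (T ∩ M) (hT.inter h1) Set.inter_subset_right
        (Set.inter_subset_left.trans hTB)
      obtain ⟨c', hc'⟩ := h3' (T \ M) (hT.diff h1) (by
        intro x hx
        rcases hTM hx.1 with h | h
        · exact absurd h hx.2
        · exact h) (Set.sdiff_subset.trans hTB)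
      refine ⟨c + c', fun φ hφ => ?_⟩
      rw [← integral_inter_add_sdiff h1 ((hint1 φ).mono_set hTB),
        ← integral_inter_add_sdiff h1 ((hint2 _).mono_set hTB), map_add]
      calc ‖((∫ μ in T ∩ M, φ h * (φ f - μ)⁻¹) + ∫ μ in T \ M, φ h * (φ f - μ)⁻¹)
            - (φ c + φ c')‖
          = ‖((∫ μ in T ∩ M, φ h * (φ f - μ)⁻¹) - φ c)
            + ((∫ μ in T \ M, φ h * (φ f - μ)⁻¹) - φ c')‖ := by congr 1; ring
        _ ≤ _ := (norm_add_le _ _).trans (add_le_add (hc φ hφ) (hc' φ hφ))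
    · intro lam hlam
      have hne : lam ≠ lam + s := by
        intro h0
        have : (s : ℂ) = 0 := by
          have h1 : lam + 0 = lam + s := by rw [add_zero]; exact h0
          exact (add_left_cancel h1).symm
        exact hs.ne' (by exact_mod_cast this)
      obtain ⟨a, b, v, hv, ha, hb⟩ := sr_split hA f h hne hη
      set r := η / (1 + ‖a‖ + ‖b‖) with hr
      have hden : 0 < 1 + ‖a‖ + ‖b‖ := by positivity
      have hrpos : 0 < r := by positivity
      refine ⟨ball lam r, mem_nhdsWithin_of_mem_nhds (ball_mem_nhds _ hrpos), ball lam r,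
        measurableSet_ball, le_rfl, fun T hT hTM hTB => ?_⟩
      have hTvol : volume T ≠ ⊤ :=
        ((measure_mono hTB).trans_lt measure_closedBall_lt_top).ne
      refine ⟨(volume.real T : ℂ) • (b - a), fun φ hφ => ?_⟩
      have hconst : φ ((volume.real T : ℂ) • (b - a)) = ∫ _ in T, φ (b - a) := by
        rw [map_smul, setIntegral_const, smul_eq_mul, Complex.real_smul]
      rw [hconst, ← integral_sub ((hint1 φ).mono_set hTB) (integrableOn_const hTvol)]
      apply norm_integral_le_of_norm_le ((hint2 _).mono_set hTB)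
      have hae1 : ∀ᵐ μ : ℂ ∂(volume.restrict T), μ ≠ φ f := by
        apply ae_restrict_of_ae
        rw [ae_iff]
        simp
      have hae2 : ∀ᵐ μ : ℂ ∂(volume.restrict T), μ ≠ φ f - s := by
        apply ae_restrict_of_ae
        rw [ae_iff]
        simp
      filter_upwards [hae1, hae2, ae_restrict_mem hT] with μ m1 m2 m3
      have hμ : ‖μ - lam‖ < r := by
        have := hTM m3
        rwa [mem_ball, dist_eq_norm] at this
      apply local_est hφ hs hv ha hb
      · calc ‖μ - lam‖ * ‖a‖ ≤ r * (1 + ‖a‖ + ‖b‖) := by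
              gcongr
              have := norm_nonneg b
              linarith
          _ = η := div_mul_cancel₀ _ hden.ne'
      · calc ‖μ - lam‖ * ‖b‖ ≤ r * (1 + ‖a‖ + ‖b‖) := by
              gcongr
              have := norm_nonneg a
              linarith
          _ = η := div_mul_cancel₀ _ hden.ne'
      · exact sub_ne_zero.mpr (Ne.symm m1)
      · exact sub_ne_zero.mpr (Ne.symm m2)
  obtain ⟨M, -, h2, h3⟩ := key
  exact h3 _ measurableSet_closedBall h2 le_rfl

/-- products with conjugates are in the closure -/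
theorem approx_conj_mul (hA : IsSR A) (f h : A) {ε : ℝ} (hε : 0 < ε) :
    ∃ c : A, ∀ φ ∈ MulFun A, ‖(starRingEnd ℂ) (φ f) * φ h - φ c‖ ≤ ε := by
  set R := ‖f‖ + 1 with hR
  have hRpos : 0 < R := by positivity
  set ρ := 2 * R + 1 with hρ
  have hρpos : 0 < ρ := by positivity
  set C3 := ∫ z in ball (0 : ℂ) ρ, q3 ‖z‖ with hC3
  set C1 := ∫ z in ball (0 : ℂ) ρ, q1 ‖z‖ with hC1
  have hC3n : 0 ≤ C3 := integral_nonneg (fun z => q3_nonneg _ (norm_nonneg _))
  have hC1n : 0 ≤ C1 := integral_nonneg (fun z => q1_nonneg _ (norm_nonneg _))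
  set M := ‖h‖ + 1 with hM
  have hMpos : 0 < M := by positivity
  set t := min 1 (ε / (8 * M * (C3 + 1))) with ht
  have htpos : 0 < t := lt_min one_pos (by positivity)
  have ht1 : t ≤ 1 := min_le_left _ _
  have ht2 : t * (8 * M * (C3 + 1)) ≤ ε := by
    have := min_le_right 1 (ε / (8 * M * (C3 + 1)))
    rwa [← ht, le_div_iff₀ (by positivity)] at this
  set s := t ^ 2 with hs
  have hspos : 0 < s := by positivity
  have hs1 : s ≤ 1 := by rw [hs]; nlinarith
  have hsqrt : Real.sqrt s = t := by rw [hs, Real.sqrt_sq htpos.le]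
  set η := ε / (8 * (C1 + 1)) with hη
  have hηpos : 0 < η := by positivity
  obtain ⟨c, hc⟩ := good_all hA f h (R := R) hspos hηpos
  refine ⟨((π : ℂ)⁻¹) • c, fun φ hφ => ?_⟩
  have hw : ‖φ f‖ ≤ ‖f‖ := mulFun_norm_le hφ f
  have hw1 : ‖φ f‖ + R < ρ := by rw [hρ, hR]; linarith [norm_nonneg f]
  have hw2 : ‖φ f - s‖ + R < ρ := by
    have : ‖φ f - s‖ ≤ ‖φ f‖ + s := by
      refine (norm_sub_le _ _).trans ?_
      rw [Complex.norm_real, Real.norm_of_nonneg hspos.le]
    rw [hρ, hR]; linarith [norm_nonneg f]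
  have h1 := (hc φ hφ).trans (err_bound (M := M) (s := s) hMpos.le hηpos.le hρpos hw1 hw2).2
  rw [integral_const_mul, disc_cauchy (hw.trans (by rw [hR]; linarith))] at h1
  have h2 : M * (2 * Real.sqrt s * (2 * C3)) + 2 * η * (2 * C1) ≤ ε := by
    rw [hsqrt]
    have e1 : M * (2 * t * (2 * C3)) ≤ ε / 2 := by
      have : t * (8 * M * C3) ≤ t * (8 * M * (C3 + 1)) := by gcongr; linarith
      nlinarith
    have e2 : 2 * η * (2 * C1) ≤ ε / 2 := by
      have e3 : η * (8 * (C1 + 1)) = ε := div_mul_cancel₀ _ (by positivity)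
      nlinarith
    linarith
  have h3 := h1.trans h2
  have hpi : (π : ℂ) ≠ 0 := by exact_mod_cast Real.pi_ne_zero
  have e : (starRingEnd ℂ) (φ f) * φ h - φ (((π : ℂ)⁻¹) • c)
      = (π : ℂ)⁻¹ * (φ h * (π * (starRingEnd ℂ) (φ f)) - φ c) := by
    rw [map_smul, smul_eq_mul]
    field_simp
  rw [e, norm_mul]
  have hpin : ‖(π : ℂ)⁻¹‖ ≤ 1 := by
    rw [norm_inv, Complex.norm_real, Real.norm_of_nonneg Real.pi_pos.le]
    apply inv_le_one_of_one_le₀
    linarith [Real.pi_gt_three]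
  calc ‖(π : ℂ)⁻¹‖ * ‖φ h * (π * (starRingEnd ℂ) (φ f)) - φ c‖ ≤ 1 * ε := by gcongr
    _ = ε := one_mul ε

end Int

section Dense
set_option linter.unusedSectionVars false

variable {A : Type u} [NonUnitalNormedCommRing A] [NormedSpace ℂ A] [IsScalarTower ℂ A A]
  [SMulCommClass ℂ A A]

lemma mulFun_closed : IsClosed (MulFun A) := by
  have h := WeakDual.CharacterSpace.union_zero_isClosed (𝕜 := ℂ) (A := A)
  rw [WeakDual.CharacterSpace.union_zero] at h
  exact h

lemma mulFun_compact : IsCompact (MulFun A) := by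
  have hsub : MulFun A ⊆ WeakDual.toStrongDual ⁻¹' closedBall (0 : StrongDual ℂ A) 1 := by
    intro φ hφ
    rw [Set.mem_preimage, mem_closedBall_zero_iff]
    exact ContinuousLinearMap.opNorm_le_bound _ zero_le_one (fun x => by
      rw [one_mul]; exact mulFun_norm_le hφ x)
  exact (WeakDual.isCompact_closedBall (0 : StrongDual ℂ A) 1).of_isClosed_subset mulFun_closed hsub

instance : CompactSpace (MulFun A) := isCompact_iff_compactSpace.mp mulFun_compact

/-- evaluation -/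
noncomputable def ev (a : A) : C(MulFun A, ℂ) :=
  ⟨fun φ => (φ : WeakDual ℂ A) a, (WeakDual.eval_continuous a).comp continuous_subtype_val⟩

lemma ev_apply (a : A) (φ : MulFun A) : ev a φ = (φ : WeakDual ℂ A) a := rfl

lemma ev_add (a b : A) : ev (a + b) = ev a + ev b := by
  ext φ; simp [ev_apply]

lemma ev_smul (c : ℂ) (a : A) : ev (c • a) = c • ev a := by
  ext φ; simp [ev_apply]

lemma ev_mul (a b : A) : ev (a * b) = ev a * ev b := by
  ext φ; simp only [ev_apply, ContinuousMap.mul_apply]; exact φ.2 a b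

/-- uniform closure of the transforms -/
def B0 (A : Type u) [NonUnitalNormedCommRing A] [NormedSpace ℂ A] [IsScalarTower ℂ A A]
    [SMulCommClass ℂ A A] : Set C(MulFun A, ℂ) := closure (Set.range (ev (A := A)))

lemma B0_ev (a : A) : ev a ∈ B0 A := subset_closure ⟨a, rfl⟩

lemma B0_zero : (0 : C(MulFun A, ℂ)) ∈ B0 A := by
  have : ev (0 : A) = 0 := by ext φ; simp [ev_apply]
  rw [← this]; exact B0_ev 0

lemma B0_add {F G : C(MulFun A, ℂ)} (hF : F ∈ B0 A) (hG : G ∈ B0 A) : F + G ∈ B0 A := by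
  refine map_mem_closure₂ continuous_add hF hG ?_
  rintro _ ⟨a, rfl⟩ _ ⟨b, rfl⟩
  exact ⟨a + b, ev_add a b⟩

lemma B0_smul (c : ℂ) {F : C(MulFun A, ℂ)} (hF : F ∈ B0 A) : c • F ∈ B0 A := by
  refine map_mem_closure (continuous_const_smul c) hF ?_
  rintro _ ⟨a, rfl⟩
  exact ⟨c • a, ev_smul c a⟩

lemma B0_sub {F G : C(MulFun A, ℂ)} (hF : F ∈ B0 A) (hG : G ∈ B0 A) : F - G ∈ B0 A := by
  have h := B0_add hF (B0_smul (-1) hG)
  rwa [neg_smul, one_smul, ← sub_eq_add_neg] at h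

lemma B0_mul {F G : C(MulFun A, ℂ)} (hF : F ∈ B0 A) (hG : G ∈ B0 A) : F * G ∈ B0 A := by
  refine map_mem_closure₂ continuous_mul hF hG ?_
  rintro _ ⟨a, rfl⟩ _ ⟨b, rfl⟩
  exact ⟨a * b, ev_mul a b⟩

lemma star_ev_mul (hA : IsSR A) (f : A) {G : C(MulFun A, ℂ)} (hG : G ∈ B0 A) :
    star (ev f) * G ∈ B0 A := by
  have h1 : star (ev f) * G ∈ closure (B0 A) := by
    refine map_mem_closure (continuous_const_mul (star (ev f))) hG ?_
    rintro _ ⟨h, rfl⟩
    unfold B0
    rw [Metric.mem_closure_iff]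
    intro ε hε
    obtain ⟨c, hc⟩ := approx_conj_mul hA f h (half_pos hε)
    refine ⟨ev c, ⟨c, rfl⟩, ?_⟩
    refine lt_of_le_of_lt ?_ (half_lt_self hε)
    rw [ContinuousMap.dist_le (half_pos hε).le]
    intro φ
    rw [dist_eq_norm]
    exact hc φ φ.2
  rwa [B0, closure_closure] at h1

lemma real_bound {r N ε : ℝ} {n : ℕ} (hr : 0 ≤ r) (hN : 0 < N) (hrN : r ^ 2 ≤ N) (hε : 0 < ε)
    (hn : N ≤ n * ε ^ 2) : r * (1 - r ^ 2 / N) ^ n ≤ ε := by
  set x := r ^ 2 / N with hx
  have hx0 : 0 ≤ x := by positivity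
  have hx1 : x ≤ 1 := by rw [hx, div_le_one hN]; exact hrN
  set y := (1 - x) ^ n with hy
  have hy0 : 0 ≤ y := by apply pow_nonneg; linarith
  have hy1 : y ≤ 1 := pow_le_one₀ (by linarith) (by linarith)
  rcases le_or_gt r ε with h | h
  · calc r * y ≤ r * 1 := by gcongr
      _ ≤ ε := by linarith
  · have hb : y * (1 + n * x) ≤ 1 := by
      calc y * (1 + n * x) ≤ y * (1 + x) ^ n := by
            gcongr
            exact one_add_mul_le_pow (by linarith) n
        _ = (1 - x ^ 2) ^ n := by rw [hy, ← mul_pow]; congr 1; ring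
        _ ≤ 1 := pow_le_one₀ (by nlinarith) (by nlinarith)
    have hb2 : y * (n * x) ≤ 1 := by nlinarith
    have hxN : x * N = r ^ 2 := div_mul_cancel₀ _ hN.ne'
    have hb3 : y * n * r ^ 2 ≤ N := by
      rw [← hxN]
      calc y * n * (x * N) = (y * (n * x)) * N := by ring
        _ ≤ 1 * N := by gcongr
        _ = N := one_mul N
    have hn0 : 0 < (n : ℝ) := by
      by_contra hcon
      push Not at hcon
      have : (n : ℝ) * ε ^ 2 ≤ 0 := mul_nonpos_of_nonpos_of_nonneg hcon (by positivity)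
      linarith
    -- y * n * r^2 ≤ n ε^2 hence y r^2 ≤ ε^2
    have hb4 : y * r ^ 2 ≤ ε ^ 2 := by
      have : n * (y * r ^ 2) ≤ n * ε ^ 2 := by nlinarith
      exact le_of_mul_le_mul_left this hn0
    have hrpos : 0 < r := hε.trans h
    have hb5 : (r * y) * r ≤ ε * r := by nlinarith
    exact le_of_mul_le_mul_right hb5 hrpos

lemma star_ev_mem (hA : IsSR A) (f : A) : star (ev f) ∈ B0 A := by
  set N : ℝ := ‖f‖ ^ 2 + 1 with hN
  have hNpos : 0 < N := by positivity
  set t : C(MulFun A, ℂ) := ((N : ℂ)⁻¹) • (star (ev f) * ev f) with ht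
  have htB : t ∈ B0 A := B0_smul _ (star_ev_mul hA f (B0_ev f))
  have hD : ∀ n : ℕ, star (ev f) - star (ev f) * (1 - t) ^ n ∈ B0 A := by
    intro n
    induction n with
    | zero => simp only [pow_zero, mul_one, sub_self]; exact B0_zero
    | succ n ih =>
      have e : star (ev f) - star (ev f) * (1 - t) ^ (n + 1)
          = (star (ev f) - star (ev f) * (1 - t) ^ n)
            + (star (ev f) * t - (star (ev f) - star (ev f) * (1 - t) ^ n) * t) := by
        ring
      rw [e]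
      exact B0_add ih (B0_sub (star_ev_mul hA f htB) (B0_mul ih htB))
  have hcl : star (ev f) ∈ closure (B0 A) := by
    rw [Metric.mem_closure_iff]
    intro ε hε
    obtain ⟨n, hn⟩ := exists_nat_ge (N / (ε / 2) ^ 2)
    rw [div_le_iff₀ (by positivity)] at hn
    refine ⟨_, hD n, ?_⟩
    refine lt_of_le_of_lt ?_ (half_lt_self hε)
    rw [ContinuousMap.dist_le (half_pos hε).le]
    intro φ
    rw [dist_eq_norm]
    have e1 : (star (ev f)) φ - (star (ev f) - star (ev f) * (1 - t) ^ n) φ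
        = (starRingEnd ℂ) ((φ : WeakDual ℂ A) f) * (1 - t φ) ^ n := by
      simp only [ContinuousMap.sub_apply, ContinuousMap.mul_apply, ContinuousMap.pow_apply,
        ContinuousMap.one_apply, ContinuousMap.star_apply, ev_apply]
      rw [sub_sub_cancel]
      rfl
    set w := (φ : WeakDual ℂ A) f with hw
    have hwf : ‖w‖ ≤ ‖f‖ := mulFun_norm_le φ.2 f
    have hwN : ‖w‖ ^ 2 ≤ N := by
      have : ‖w‖ ^ 2 ≤ ‖f‖ ^ 2 := by gcongr
      linarith
    have e2 : t φ = ((‖w‖ ^ 2 / N : ℝ) : ℂ) := by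
      have : t φ = (N : ℂ)⁻¹ * ((starRingEnd ℂ) w * w) := rfl
      rw [this, Complex.conj_mul']
      push_cast
      ring
    rw [e1, e2, norm_mul, RCLike.norm_conj]
    have e3 : ‖(1 - ((‖w‖ ^ 2 / N : ℝ) : ℂ)) ^ n‖ = (1 - ‖w‖ ^ 2 / N) ^ n := by
      rw [norm_pow]
      congr 1
      rw [← Complex.ofReal_one, ← Complex.ofReal_sub, Complex.norm_real, Real.norm_of_nonneg]
      rw [sub_nonneg, div_le_one hNpos]
      exact hwN
    rw [e3]
    exact real_bound (norm_nonneg _) hNpos hwN (half_pos hε) hn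
  rwa [B0, closure_closure] at hcl

lemma B0_star (hA : IsSR A) {G : C(MulFun A, ℂ)} (hG : G ∈ B0 A) : star G ∈ B0 A := by
  have h1 : star G ∈ closure (B0 A) := by
    refine map_mem_closure continuous_star hG ?_
    rintro _ ⟨f, rfl⟩
    exact star_ev_mem hA f
  rwa [B0, closure_closure] at h1

/-- the zero functional -/
noncomputable def zeroK : MulFun A := ⟨0, fun _ _ => (mul_zero (0 : ℂ)).symm⟩

lemma zeroK_apply (a : A) : ev a zeroK = 0 := rfl

/-- constant function -/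
noncomputable def cst (c : ℂ) : C(MulFun A, ℂ) := ContinuousMap.const _ c

lemma adjoin_sub (hA : IsSR A) {F : C(MulFun A, ℂ)}
    (hF : F ∈ StarAlgebra.adjoin ℂ (Set.range (ev (A := A)))) : F - cst (F zeroK) ∈ B0 A := by
  induction hF using StarAlgebra.adjoin_induction with
  | mem F h =>
    obtain ⟨a, rfl⟩ := h
    have : cst (ev a zeroK) = (0 : C(MulFun A, ℂ)) := by ext φ; rfl
    rw [this, sub_zero]
    exact B0_ev a
  | algebraMap r =>
    have : (algebraMap ℂ C(MulFun A, ℂ)) r - cst ((algebraMap ℂ C(MulFun A, ℂ)) r zeroK) = 0 := by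
      ext φ; simp [cst]
    rw [this]
    exact B0_zero
  | add F G _ _ hF hG =>
    have : F + G - cst ((F + G) zeroK) = (F - cst (F zeroK)) + (G - cst (G zeroK)) := by
      ext φ; simp [cst]; ring
    rw [this]
    exact B0_add hF hG
  | mul F G _ _ hF hG =>
    have : F * G - cst ((F * G) zeroK) = (F - cst (F zeroK)) * (G - cst (G zeroK))
        + ((F zeroK) • (G - cst (G zeroK)) + (G zeroK) • (F - cst (F zeroK))) := by
      ext φ; simp [cst]; ring
    rw [this]
    exact B0_add (B0_mul hF hG) (B0_add (B0_smul _ hG) (B0_smul _ hF))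
  | star F _ hF =>
    have : star F - cst ((star F) zeroK) = star (F - cst (F zeroK)) := by
      ext φ; simp [cst]
    rw [this]
    exact B0_star hA hF

lemma dense_K (hA : IsSR A) (g : C(MulFun A, ℂ)) (hg : g zeroK = 0) {ε : ℝ} (hε : 0 < ε) :
    ∃ a : A, ∀ φ : MulFun A, ‖(φ : WeakDual ℂ A) a - g φ‖ < ε := by
  set S := StarAlgebra.adjoin ℂ (Set.range (ev (A := A))) with hS
  have hsep : S.SeparatesPoints := by
    intro φ ψ hne
    obtain ⟨a, ha⟩ : ∃ a : A, (φ : WeakDual ℂ A) a ≠ (ψ : WeakDual ℂ A) a := by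
      by_contra hcon
      push Not at hcon
      exact hne (Subtype.ext (ContinuousLinearMap.ext hcon))
    exact ⟨ev a, ⟨ev a, StarAlgebra.subset_adjoin ℂ _ ⟨a, rfl⟩, rfl⟩, ha⟩
  have htop := ContinuousMap.starSubalgebra_topologicalClosure_eq_top_of_separatesPoints S hsep
  have hgS : g ∈ closure (S : Set C(MulFun A, ℂ)) := by
    rw [← StarSubalgebra.topologicalClosure_coe, htop]
    exact StarSubalgebra.mem_top
  rw [Metric.mem_closure_iff] at hgS
  obtain ⟨F, hFS, hF⟩ := hgS (ε / 3) (by positivity)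
  have hF0 := adjoin_sub hA hFS
  unfold B0 at hF0
  rw [Metric.mem_closure_iff] at hF0
  obtain ⟨_, ⟨a, rfl⟩, ha⟩ := hF0 (ε / 3) (by positivity)
  refine ⟨a, fun φ => ?_⟩
  have h1 : dist (g φ) (F φ) < ε / 3 := (ContinuousMap.dist_apply_le_dist φ).trans_lt hF
  have h2 : dist (g zeroK) (F zeroK) < ε / 3 := (ContinuousMap.dist_apply_le_dist _).trans_lt hF
  have h3 : dist ((F - cst (F zeroK) : C(MulFun A, ℂ)) φ) (ev a φ) < ε / 3 :=
    (ContinuousMap.dist_apply_le_dist φ).trans_lt ha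
  have h4 : (F - cst (F zeroK) : C(MulFun A, ℂ)) φ = F φ - F zeroK := rfl
  rw [h4] at h3
  rw [dist_eq_norm] at h1 h2 h3
  rw [hg, zero_sub, norm_neg] at h2
  have e : (φ : WeakDual ℂ A) a - g φ
      = -((F φ - F zeroK) - ev a φ) - (g φ - F φ) - F zeroK := by
    rw [ev_apply]; ring
  rw [e]
  calc ‖-((F φ - F zeroK) - ev a φ) - (g φ - F φ) - F zeroK‖
      ≤ ‖-((F φ - F zeroK) - ev a φ) - (g φ - F φ)‖ + ‖F zeroK‖ := norm_sub_le _ _
    _ ≤ (‖-((F φ - F zeroK) - ev a φ)‖ + ‖g φ - F φ‖) + ‖F zeroK‖ := by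
        gcongr; exact norm_sub_le _ _
    _ < ε := by rw [norm_neg]; linarith

/-- inclusion of the character space -/
noncomputable def incl (φ : characterSpace ℂ A) : MulFun A := ⟨φ.1, φ.2.2⟩

lemma incl_emb : Topology.IsOpenEmbedding (incl (A := A)) := by
  have hc : Continuous (incl (A := A)) := Continuous.subtype_mk continuous_subtype_val _
  have h1 : Topology.IsEmbedding (incl (A := A)) := by
    apply Topology.IsEmbedding.of_comp hc continuous_subtype_val
    exact Topology.IsEmbedding.subtypeVal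
  refine ⟨h1, ?_⟩
  have h2 : Set.range (incl (A := A)) = {zeroK}ᶜ := by
    ext ψ
    constructor
    · rintro ⟨φ, rfl⟩ h
      exact φ.2.1 (congrArg Subtype.val h)
    · intro h
      exact ⟨⟨ψ.1, fun h0 => h (Subtype.ext h0), ψ.2⟩, rfl⟩
  rw [h2]
  exact isOpen_compl_singleton

lemma incl_ne (φ : characterSpace ℂ A) : incl φ ≠ zeroK := fun h => φ.2.1 (congrArg Subtype.val h)

lemma exists_incl {ψ : MulFun A} (h : ψ ≠ zeroK) : ∃ φ : characterSpace ℂ A, incl φ = ψ :=
  ⟨⟨ψ.1, fun h0 => h (Subtype.ext h0), ψ.2⟩, rfl⟩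

theorem gelfand_continuous (a : A) : Continuous (fun φ : characterSpace ℂ A => φ a) :=
  (WeakDual.eval_continuous a).comp continuous_subtype_val

theorem gelfand_zero_at_infty (a : A) :
    Tendsto (fun φ : characterSpace ℂ A => φ a) (cocompact (characterSpace ℂ A)) (𝓝 0) := by
    rw [Metric.tendsto_nhds]
    intro ε hε
    have hcl : IsClosed {ψ : MulFun A | ε ≤ ‖ev a ψ‖} :=
      isClosed_le continuous_const (ev a).continuous.norm
    have hcomp : IsCompact {ψ : MulFun A | ε ≤ ‖ev a ψ‖} := hcl.isCompact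
    have hsub : {ψ : MulFun A | ε ≤ ‖ev a ψ‖} ⊆ Set.range (incl (A := A)) := by
      intro ψ hψ
      have hne : ψ ≠ zeroK := by
        rintro rfl
        simp only [Set.mem_ofPred_eq, zeroK_apply, norm_zero] at hψ
        linarith
      exact exists_incl hne
    have hpre := (incl_emb (A := A)).isInducing.isCompact_preimage_iff hsub |>.mpr hcomp
    refine Filter.mem_cocompact.mpr ⟨_, hpre, ?_⟩
    intro φ hφ
    simp only [Set.mem_compl_iff, Set.mem_preimage, Set.mem_ofPred_eq, not_le] at hφ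
    simp only [Set.mem_ofPred_eq, dist_zero_right]
    exact hφ

/-- the Gelfand transform of `a`, the function `φ ↦ φ a` on the spectrum of `A`, as an element
of `C₀` of the spectrum -/
noncomputable def gelfandC0 (a : A) : C₀(characterSpace ℂ A, ℂ) where
  toFun φ := φ a
  continuous_toFun := gelfand_continuous a
  zero_at_infty' := gelfand_zero_at_infty a

open Classical in
/-- extension by zero -/
noncomputable def extK (g : C₀(characterSpace ℂ A, ℂ)) (ψ : MulFun A) : ℂ :=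
  if h : ψ ≠ zeroK then g (exists_incl h).choose else 0

lemma extK_incl (g : C₀(characterSpace ℂ A, ℂ)) (φ : characterSpace ℂ A) :
    extK g (incl φ) = g φ := by
  unfold extK
  rw [dif_pos (incl_ne φ)]
  congr 1
  exact incl_emb.injective (exists_incl (incl_ne φ)).choose_spec

lemma extK_zero (g : C₀(characterSpace ℂ A, ℂ)) : extK g zeroK = 0 := by
  unfold extK
  rw [dif_neg (by simp)]

lemma extK_cont (g : C₀(characterSpace ℂ A, ℂ)) : Continuous (extK g) := by
  rw [continuous_iff_continuousAt]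
  intro ψ
  by_cases hψ : ψ = zeroK
  · subst hψ
    rw [Metric.continuousAt_iff']
    intro ε hε
    rw [extK_zero]
    have h1 := g.zero_at_infty'
    rw [Metric.tendsto_nhds] at h1
    obtain ⟨C, hC, hCs⟩ := Filter.mem_cocompact.mp (h1 ε hε)
    have hCK : IsClosed (incl (A := A) '' C) := (hC.image incl_emb.continuous).isClosed
    have hnot : zeroK (A := A) ∉ incl (A := A) '' C := by
      rintro ⟨φ, -, hφ⟩
      exact incl_ne φ hφ
    filter_upwards [hCK.isOpen_compl.mem_nhds hnot] with ψ hψ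
    by_cases h0 : ψ = zeroK
    · rw [h0, extK_zero, dist_self]; exact hε
    · obtain ⟨φ, rfl⟩ := exists_incl h0
      rw [extK_incl]
      have : φ ∈ Cᶜ := fun h => hψ ⟨φ, h, rfl⟩
      exact hCs this
  · obtain ⟨φ, rfl⟩ := exists_incl hψ
    rw [← incl_emb.continuousAt_iff]
    have : extK g ∘ incl = g := by
      funext x; exact extK_incl g x
    rw [this]
    exact g.continuous.continuousAt

/-- density in `C₀` -/
theorem dense_C0 (hA : IsSR A) : DenseRange (gelfandC0 (A := A)) := by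
  rw [Metric.denseRange_iff]
  intro g ε hε
  obtain ⟨a, ha⟩ := dense_K hA ⟨extK g, extK_cont g⟩ (extK_zero g) (half_pos hε)
  refine ⟨a, ?_⟩
  refine lt_of_le_of_lt ?_ (half_lt_self hε)
  rw [← ZeroAtInftyContinuousMap.dist_toBCF_eq_dist,
    BoundedContinuousFunction.dist_le (half_pos hε).le]
  intro φ
  have h := (ha (incl φ)).le
  have h2 : (⟨extK g, extK_cont g⟩ : C(MulFun A, ℂ)) (incl φ) = g φ := extK_incl g φ
  rw [h2] at h
  rw [dist_comm, dist_eq_norm]
  exact h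

end Dense

/-- For every commutative SR-algebra the Gelfand transform algebra is dense in `C₀` of the
spectrum, for the sup norm. The algebra is a complex Banach algebra, with or without identity. -/
theorem result : ∀ (A : Type u) [NonUnitalNormedCommRing A] [NormedSpace ℂ A]
    [IsScalarTower ℂ A A] [SMulCommClass ℂ A A] [CompleteSpace A],
    IsSR A → DenseRange (gelfandC0 : A → C₀(characterSpace ℂ A, ℂ)) :=
  fun _ _ _ _ _ _ hA => dense_C0 hA

end Pool.Agent.Results.MP_da2ee6_an.Density
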